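import Mathlib

/-!
# Colouring Grassmann graphs with Moore determinants
-/

set_option autoImplicit false

open Module
open scoped LinearAlgebra.Projectivization

namespace Pool.Agent.Q110.Grass

variable (K : Type) [Field K] [Fintype K] {E : Type} [Field E] [Algebra K E]

/-- the `j`-th power of the Frobenius map, a linear map -/
noncomputable def frob (E : Type) [Field E] [Algebra K E] (j : ℕ) : E →ₗ[K] E :=
  ((FiniteField.frobeniusAlgHom K E) ^ j).toLinearMap

theorem frob_apply (j : ℕ) (x : E) : frob K E j x = x ^ (Fintype.card K ^ j) := by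
  unfold frob
  simp only [AlgHom.toLinearMap_apply]
  induction j generalizing x with
  | zero => simp
  | succ j ih =>
    rw [pow_succ, AlgHom.mul_apply, ih, FiniteField.coe_frobeniusAlgHom]
    simp only
    rw [← pow_mul, pow_succ, mul_comm]

/-- the Moore matrix -/
noncomputable def moore {k : ℕ} (u : Fin k → E) : Matrix (Fin k) (Fin k) E :=
  Matrix.of fun i j => frob K E j (u i)

theorem moore_det_ne_zero {k : ℕ} {u : Fin k → E} (hu : LinearIndependent K u) :
    (moore K u).det ≠ 0 := by
  classical
  intro h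
  obtain ⟨v, hv, hv0⟩ := Matrix.exists_mulVec_eq_zero_iff.2 h
  set q := Fintype.card K with hq
  have hq1 : 1 < q := Fintype.one_lt_card
  let T : E →ₗ[K] E := ∑ j : Fin k, (LinearMap.mulLeft K (v j)).comp (frob K E j)
  let P : Polynomial E := ∑ j : Fin k, Polynomial.C (v j) * Polynomial.X ^ (q ^ (j : ℕ))
  have hT : ∀ x, T x = ∑ j : Fin k, v j * x ^ (q ^ (j : ℕ)) := by
    intro x
    simp only [T, LinearMap.sum_apply, LinearMap.comp_apply, LinearMap.mulLeft_apply, frob_apply]
    rfl
  have hP : ∀ x, P.eval x = T x := by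
    intro x
    rw [hT]
    simp [P, Polynomial.eval_finsetSum]
  have hTu : ∀ i, T (u i) = 0 := by
    intro i
    have := congrFun hv0 i
    simp only [Matrix.mulVec, dotProduct, moore, Matrix.of_apply, Pi.zero_apply] at this
    rw [hT, ← this]
    refine Finset.sum_congr rfl fun j _ => ?_
    rw [frob_apply, mul_comm]
  have hP0 : P = 0 := by
    refine Polynomial.eq_zero_of_natDegree_lt_card_of_eval_eq_zero P (ι := Fin k → K)
      (f := fun c => ∑ i, c i • u i) ?_ ?_ ?_
    · intro c c' hc
      have := Fintype.linearIndependent_iff.1 hu (fun i => c i - c' i) (by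
        simp only at hc
        simp only [sub_smul, Finset.sum_sub_distrib, hc, sub_self])
      funext i
      exact sub_eq_zero.1 (this i)
    · intro c
      rw [hP, map_sum]
      refine Finset.sum_eq_zero fun i _ => ?_
      rw [map_smul, hTu, smul_zero]
    · rw [Fintype.card_fun, Fintype.card_fin]
      refine lt_of_le_of_lt (Polynomial.natDegree_sum_le_of_forall_le (n := q ^ (k - 1)) _ _ ?_) ?_
      · intro j _
        refine (Polynomial.natDegree_C_mul_X_pow_le _ _).trans ?_
        exact Nat.pow_le_pow_right (by omega) (by omega)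
      · refine Nat.pow_lt_pow_right hq1 ?_
        rcases Nat.eq_zero_or_pos k with hk | hk
        · exfalso
          subst hk
          exact hv (funext fun i => i.elim0)
        · omega
  apply hv
  funext i
  have h1 : P.coeff (q ^ (i : ℕ)) = v i := by
    simp only [P, Polynomial.finsetSum_coeff, Polynomial.coeff_C_mul, Polynomial.coeff_X_pow]
    rw [Finset.sum_eq_single i]
    · simp
    · intro j _ hj
      rw [if_neg, mul_zero]
      intro he
      exact hj (Fin.ext (Nat.pow_right_injective hq1 he)).symm
    · intro h; exact absurd (Finset.mem_univ i) h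
  rw [← h1, hP0]
  simp

theorem moore_base {k : ℕ} (A : Matrix (Fin k) (Fin k) K) (b u : Fin k → E)
    (h : ∀ i, u i = ∑ l, A i l • b l) :
    (moore K u).det = A.det • (moore K b).det := by
  have h1 : moore K u = (A.map (algebraMap K E)) * moore K b := by
    ext i j
    rw [Matrix.mul_apply]
    simp only [moore, Matrix.of_apply, Matrix.map_apply]
    rw [h, map_sum]
    refine Finset.sum_congr rfl fun l _ => ?_
    rw [map_smul, Algebra.smul_def]
  rw [h1, Matrix.det_mul, Algebra.smul_def]
  congr 1
  exact (RingHom.map_det (algebraMap K E) A).symm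

/-- the Moore determinant as a function of the first vector -/
theorem moore_cons_lin {k : ℕ} (w : Fin k → E) :
    ∃ T : E →ₗ[K] E, ∀ x, T x = (moore K (Fin.cons x w : Fin (k + 1) → E)).det := by
  refine ⟨∑ j : Fin (k + 1), ((-1) ^ (j : ℕ) *
      ((moore K (Fin.cons 0 w : Fin (k + 1) → E)).submatrix Fin.succ j.succAbove).det) •
        (frob K E j), fun x => ?_⟩
  rw [Matrix.det_succ_row_zero, LinearMap.sum_apply]
  refine Finset.sum_congr rfl fun j _ => ?_
  rw [LinearMap.smul_apply, smul_eq_mul]
  have h1 : ((moore K (Fin.cons x w : Fin (k + 1) → E)).submatrix Fin.succ j.succAbove) =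
      ((moore K (Fin.cons 0 w : Fin (k + 1) → E)).submatrix Fin.succ j.succAbove) := by
    ext a b
    simp [moore]
  rw [h1]
  simp only [moore, Matrix.of_apply, Fin.cons_zero]
  ring

variable {K}

/-- the colour of a `k`-space: the class of the Moore determinant of a basis -/
theorem exists_colour_aux {k : ℕ} (L : Submodule K E) [FiniteDimensional K L] (hL : finrank K ↥L = k) :
    ∃ c : ℙ K E, ∀ u : Fin k → E, LinearIndependent K u → (∀ i, u i ∈ L) →
      ∃ h : (moore K u).det ≠ 0, Projectivization.mk K _ h = c := by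
  classical
  let b : Basis (Fin k) K ↥L := Module.finBasisOfFinrankEq K ↥L hL
  have hb : LinearIndependent K (fun i => (b i : E)) :=
    b.linearIndependent.map' L.subtype L.ker_subtype
  refine ⟨Projectivization.mk K _ (moore_det_ne_zero K hb), fun u hu huL => ?_⟩
  refine ⟨moore_det_ne_zero K hu, ?_⟩
  rw [Projectivization.mk_eq_mk_iff']
  let A : Matrix (Fin k) (Fin k) K := fun i l => b.repr ⟨u i, huL i⟩ l
  refine ⟨A.det, (moore_base K A _ u fun i => ?_).symm⟩
  have h1 := b.sum_repr ⟨u i, huL i⟩
  have h2 := congrArg (Subtype.val) h1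
  simp only [Submodule.coe_sum, Submodule.coe_smul] at h2
  exact h2.symm

/-- adjacent spaces have different colours -/
theorem exists_colour [FiniteDimensional K E] (k : ℕ) :
    ∃ c : Submodule K E → ℙ K E, ∀ L M : Submodule K E, finrank K ↥L = k → finrank K ↥M = k →
      finrank K ↥(L ⊓ M) + 1 = k → c L ≠ c M := by
  classical
  obtain ⟨v, hv⟩ := exists_ne (0 : E)
  have hex : ∀ L : Submodule K E, ∃ c : ℙ K E, finrank K ↥L = k →
      ∀ u : Fin k → E, LinearIndependent K u → (∀ i, u i ∈ L) →
      ∃ h : (moore K u).det ≠ 0, Projectivization.mk K _ h = c := by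
    intro L
    by_cases hL : finrank K ↥L = k
    · obtain ⟨c, hc⟩ := exists_colour_aux L hL
      exact ⟨c, fun _ => hc⟩
    · exact ⟨Projectivization.mk K v hv, fun h => absurd h hL⟩
  choose c hc using hex
  refine ⟨c, fun L M hL hM hLM he => ?_⟩
  obtain ⟨j, rfl⟩ : ∃ j, k = j + 1 := ⟨k - 1, by omega⟩
  have hj : finrank K ↥(L ⊓ M) = j := by omega
  let b : Basis (Fin j) K ↥(L ⊓ M) := Module.finBasisOfFinrankEq K ↥(L ⊓ M) hj
  let w : Fin j → E := fun i => (b i : E)
  have hw : LinearIndependent K w := b.linearIndependent.map' (L ⊓ M).subtype (L ⊓ M).ker_subtype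
  have hspan : Submodule.span K (Set.range w) = L ⊓ M := by
    have h1 : Set.range w = (L ⊓ M).subtype '' Set.range b := by
      rw [← Set.range_comp]; rfl
    rw [h1, ← Submodule.map_span, b.span_eq, Submodule.map_top, Submodule.range_subtype]
  have hwLM : ∀ i, w i ∈ L ⊓ M := fun i => (b i).2
  have hpick : ∀ S : Submodule K E, finrank K ↥S = j + 1 → ∃ x ∈ S, x ∉ L ⊓ M := by
    intro S hS
    by_contra hcon
    push Not at hcon
    have := Submodule.finrank_mono (show S ≤ L ⊓ M from hcon)
    omega
  obtain ⟨x, hxL, hx⟩ := hpick L hL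
  obtain ⟨y, hyM, hy⟩ := hpick M hM
  have hindx : LinearIndependent K (Fin.cons x w : Fin (j + 1) → E) :=
    linearIndependent_finCons.2 ⟨hw, by rwa [hspan]⟩
  have hindy : LinearIndependent K (Fin.cons y w : Fin (j + 1) → E) :=
    linearIndependent_finCons.2 ⟨hw, by rwa [hspan]⟩
  obtain ⟨h1, h2⟩ := hc L hL (Fin.cons x w) hindx (fun i => by
    refine Fin.cases ?_ (fun i => ?_) i
    · exact hxL
    · exact (hwLM i).1)
  obtain ⟨h3, h4⟩ := hc M hM (Fin.cons y w) hindy (fun i => by
    refine Fin.cases ?_ (fun i => ?_) i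
    · exact hyM
    · exact (hwLM i).2)
  rw [← h2, ← h4, Projectivization.mk_eq_mk_iff'] at he
  obtain ⟨l, hl⟩ := he
  obtain ⟨T, hT⟩ := moore_cons_lin K w
  rw [← hT, ← hT, ← map_smul] at hl
  have h5 : T (x - l • y) = 0 := by rw [map_sub, hl, sub_self]
  have h6 : x - l • y ∈ L ⊓ M := by
    by_contra hcon
    have hind : LinearIndependent K (Fin.cons (x - l • y) w : Fin (j + 1) → E) :=
      linearIndependent_finCons.2 ⟨hw, by rwa [hspan]⟩
    apply moore_det_ne_zero K hind
    rw [← hT, h5]
  apply hx
  refine ⟨hxL, ?_⟩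
  have : x = (x - l • y) + l • y := by abel
  rw [this]
  exact M.add_mem h6.2 (M.smul_mem l hyM)

end Pool.Agent.Q110.Grass
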