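import Mathlib

/-!
# Clique minors of Grassmann graphs

Branch sets, each a family of `k`-spaces pairwise meeting in dimension `k - 1`.
-/

set_option autoImplicit false

open Module
open scoped LinearAlgebra.Projectivization

namespace Pool.Agent.Q110.Grass

variable {K : Type} [Field K]

/-- Two subspaces are (distinct and) adjacent -/
def Near {V : Type} [AddCommGroup V] [Module K V] (k : ℕ) (L M : Submodule K V) : Prop :=
  L ≠ M ∧ k ≤ finrank K ↥(L ⊓ M) + 1

theorem Near.symm {V : Type} [AddCommGroup V] [Module K V] {k : ℕ} {L M : Submodule K V}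
    (h : Near k L M) : Near k M L := ⟨h.1.symm, by rw [inf_comm]; exact h.2⟩

/-- the family of branch sets in `C × (D × K)`: `N` pairwise disjoint cliques, pairwise joined, each
containing for every `a` a space over `⟨(a, 1), (d, 0)⟩` for some `d`. -/
def Good (K : Type) [Field K] (C D : Type) [AddCommGroup C] [Module K C] [AddCommGroup D] [Module K D]
    (k N : ℕ) : Prop :=
  ∃ (ι : Type) (_ : Finite ι) (f : ι → Set (Submodule K (C × (D × K)))), Nat.card ι = N ∧
    (∀ i, ∀ M ∈ f i, finrank K ↥M = k) ∧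
    (∀ i, ∀ L ∈ f i, ∀ M ∈ f i, L ≠ M → Near k L M) ∧
    (∀ i j, i ≠ j → Disjoint (f i) (f j)) ∧
    (∀ i j, i ≠ j → ∃ L ∈ f i, ∃ M ∈ f j, Near k L M) ∧
    (∀ i, ∀ a : D, ∃ p : ℙ K D, ∃ M ∈ f i, ∀ m ∈ M, ∃ ν : K, m.2.1 = m.2.2 • a + ν • p.rep)

section dir

variable {D : Type} [AddCommGroup D] [Module K D]

theorem exists_dir [Nontrivial D] (w : D) : ∃ p : ℙ K D, ∃ l : K, w = l • p.rep := by
  by_cases hw : w = 0
  · obtain ⟨v, hv⟩ := exists_ne (0 : D)
    exact ⟨Projectivization.mk K v hv, 0, by simp [hw]⟩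
  · obtain ⟨a, ha⟩ := Projectivization.exists_smul_eq_mk_rep K w hw
    refine ⟨Projectivization.mk K w hw, ((a⁻¹ : Kˣ) : K), ?_⟩
    rw [← ha]
    change w = (a⁻¹ : Kˣ) • a • w
    rw [inv_smul_smul]

theorem exists_func (p : ℙ K D) : ∃ f : D →ₗ[K] K, f p.rep = 1 := by
  have h : p.rep ∉ (⊥ : Submodule K D) := by
    rw [Submodule.mem_bot]; exact p.rep_nonzero
  obtain ⟨g, _, hg⟩ := LinearMap.exists_extend_of_notMem (K := K) (p := (⊥ : Submodule K D)) 0 h (1 : K)
  exact ⟨g, hg⟩

/-- a functional with value one at the representative -/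
noncomputable def func (p : ℙ K D) : D →ₗ[K] K := (exists_func p).choose

theorem func_rep (p : ℙ K D) : func p p.rep = 1 := (exists_func p).choose_spec

end dir

variable {C D : Type} [AddCommGroup C] [Module K C] [AddCommGroup D] [Module K D]

/-- forget the new coordinate -/
def rho : ((K × C) × (D × K)) →ₗ[K] (C × (D × K)) :=
  (LinearMap.snd K K C).prodMap LinearMap.id

theorem rho_apply (v : (K × C) × (D × K)) : rho v = (v.1.2, v.2) := rfl

/-- the preimage of a subspace -/
def liftEquiv (M : Submodule K (C × (D × K))) : ↥(M.comap rho) ≃ₗ[K] K × ↥M where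
  toFun v := (v.1.1.1, ⟨rho v.1, v.2⟩)
  map_add' _ _ := rfl
  map_smul' _ _ := rfl
  invFun x := ⟨((x.1, x.2.1.1), x.2.1.2), x.2.2⟩
  left_inv _ := rfl
  right_inv _ := rfl

theorem finrank_lift [FiniteDimensional K C] [FiniteDimensional K D] (M : Submodule K (C × (D × K))) :
    finrank K ↥(M.comap (rho : ((K × C) × (D × K)) →ₗ[K] _)) = finrank K ↥M + 1 := by
  rw [LinearEquiv.finrank_eq (liftEquiv M), finrank_prod, finrank_self, add_comm]

theorem lift_injective : Function.Injective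
    (fun M : Submodule K (C × (D × K)) => M.comap (rho : ((K × C) × (D × K)) →ₗ[K] _)) := by
  apply Submodule.comap_injective_of_surjective
  intro u
  exact ⟨((0, u.1), u.2), rfl⟩

/-- parametrisation of the new subspaces -/
noncomputable def Phi (a : D) (G : (C × K) →ₗ[K] K) (p : ℙ K D) :
    ((C × K) × K) →ₗ[K] ((K × C) × (D × K)) where
  toFun w := ((G w.1 + w.2 * func p a, w.1.1), (w.1.2 • a + w.2 • p.rep, w.1.2))
  map_add' x y := by
    ext
    · simp; ring
    · simp
    · simp [add_smul]; abel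
    · simp
  map_smul' r x := by
    ext
    · simp [mul_add, mul_assoc]
    · simp
    · simp [smul_smul]
    · simp

theorem Phi_apply (a : D) (G : (C × K) →ₗ[K] K) (p : ℙ K D) (w : (C × K) × K) :
    Phi a G p w = ((G w.1 + w.2 * func p a, w.1.1), (w.1.2 • a + w.2 • p.rep, w.1.2)) := rfl

theorem Phi_injective (a : D) (G : (C × K) →ₗ[K] K) (p : ℙ K D) : Function.Injective (Phi a G p) := by
  intro x y h
  rw [Phi_apply, Phi_apply, Prod.ext_iff, Prod.ext_iff, Prod.ext_iff] at h
  obtain ⟨⟨-, h1⟩, h2, h3⟩ := h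
  simp only at h1 h2 h3
  rw [h3, add_right_inj] at h2
  have h4 := smul_left_injective K p.rep_nonzero h2
  exact Prod.ext (Prod.ext h1 h3) h4

theorem near_of_functional {V W : Type} [AddCommGroup V] [Module K V] [AddCommGroup W] [Module K W]
    [FiniteDimensional K W] {k : ℕ} (Φ : W →ₗ[K] V) (hΦ : Function.Injective Φ) (hW : finrank K W = k)
    (M : Submodule K V) (δ : W →ₗ[K] K) (h : ∀ w, δ w = 0 → Φ w ∈ M) :
    k ≤ finrank K ↥(LinearMap.range Φ ⊓ M) + 1 := by
  have h1 : (LinearMap.ker δ).map Φ ≤ LinearMap.range Φ ⊓ M := by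
    rintro _ ⟨w, hw, rfl⟩
    exact ⟨⟨w, rfl⟩, h w hw⟩
  have h2 := LinearMap.finrank_range_add_finrank_ker δ
  have h3 : finrank K ↥(LinearMap.range δ) ≤ 1 := by
    have := Submodule.finrank_le (LinearMap.range δ)
    rwa [finrank_self] at this
  have h4 : finrank K ↥((LinearMap.ker δ).map Φ) = finrank K ↥(LinearMap.ker δ) :=
    (LinearEquiv.finrank_eq (Submodule.equivMapOfInjective Φ hΦ (LinearMap.ker δ))).symm
  have h5 := Submodule.finrank_mono h1
  omega

theorem finrank_Phi [FiniteDimensional K C] (a : D) (G : (C × K) →ₗ[K] K) (p : ℙ K D) :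
    finrank K ↥(LinearMap.range (Phi a G p)) = finrank K C + 2 := by
  rw [LinearMap.finrank_range_of_inj (Phi_injective a G p), finrank_prod, finrank_prod, finrank_self]

theorem Phi_range_inj {a b : D} {G H : (C × K) →ₗ[K] K} {p p' : ℙ K D}
    (h : LinearMap.range (Phi a G p) = LinearMap.range (Phi b H p')) : a = b ∧ G = H := by
  have h1 : Phi a G p ((0, 0), 1) ∈ LinearMap.range (Phi b H p') := by rw [← h]; exact ⟨_, rfl⟩
  obtain ⟨⟨⟨c, μ⟩, ν⟩, hw⟩ := h1
  rw [Phi_apply, Phi_apply, Prod.ext_iff, Prod.ext_iff, Prod.ext_iff] at hw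
  obtain ⟨⟨e1, e2⟩, e3, e4⟩ := hw
  simp only at e1 e2 e3 e4
  subst e2 e4
  have z0 : ((0 : C), (0 : K)) = 0 := rfl
  rw [z0, map_zero, map_zero, zero_add, zero_add, one_mul] at e1
  rw [zero_smul, zero_smul, zero_add, zero_add, one_smul] at e3
  have hp : p = p' := by
    rw [← p.mk_rep, ← p'.mk_rep, Projectivization.mk_eq_mk_iff']
    exact ⟨ν, e3⟩
  subst hp
  have hν : ν = 1 := by
    have := smul_left_injective K p.rep_nonzero (e3.trans (one_smul K p.rep).symm)
    exact this
  subst hν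
  rw [one_mul] at e1
  -- now compare the remaining generators
  have key : ∀ c : C, ∀ μ : K, ∃ ν : K, G (c, μ) = H (c, μ) + ν * func p b ∧
      μ • a = μ • b + ν • p.rep := by
    intro c μ
    have h1 : Phi a G p ((c, μ), 0) ∈ LinearMap.range (Phi b H p) := by rw [← h]; exact ⟨_, rfl⟩
    obtain ⟨⟨⟨c', μ'⟩, ν⟩, hw⟩ := h1
    rw [Phi_apply, Phi_apply, Prod.ext_iff, Prod.ext_iff, Prod.ext_iff] at hw
    obtain ⟨⟨e1, e2⟩, e3, e4⟩ := hw
    simp only at e1 e2 e3 e4
    subst e2 e4
    refine ⟨ν, ?_, ?_⟩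
    · rw [e1]; ring
    · rw [e3]; simp
  have hab : a = b := by
    obtain ⟨ν, -, h2⟩ := key 0 1
    rw [one_smul, one_smul] at h2
    have h3 := congrArg (func p) h2
    rw [map_add, map_smul, func_rep, smul_eq_mul, mul_one, ← e1] at h3
    have : ν = 0 := left_eq_add.1 h3
    rw [this, zero_smul, add_zero] at h2
    exact h2
  subst hab
  refine ⟨rfl, LinearMap.ext fun x => ?_⟩
  obtain ⟨ν, h1, h2⟩ := key x.1 x.2
  have hν : ν = 0 := by
    have h4 : (0 : K) • p.rep = ν • p.rep := by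
      rw [zero_smul]
      have := h2
      rw [left_eq_add] at this
      exact this.symm
    exact (smul_left_injective K p.rep_nonzero h4).symm
  rw [hν, zero_mul, add_zero] at h1
  exact h1

/-- the new branch set -/
def newSet (x : D × ((C × K) →ₗ[K] K)) : Set (Submodule K ((K × C) × (D × K))) :=
  {L | ∃ p : ℙ K D, L = LinearMap.range (Phi x.1 x.2 p)}

/-- the lifted branch set -/
def oldSet (S : Set (Submodule K (C × (D × K)))) : Set (Submodule K ((K × C) × (D × K))) :=
  {L | ∃ M ∈ S, L = M.comap rho}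

theorem lift_ne_range (M : Submodule K (C × (D × K))) (a : D) (G : (C × K) →ₗ[K] K) (p : ℙ K D) :
    M.comap rho ≠ LinearMap.range (Phi a G p) := by
  intro h
  have h1 : (((1 : K), (0 : C)), ((0 : D), (0 : K))) ∈ M.comap rho := by
    rw [Submodule.mem_comap]
    exact M.zero_mem
  rw [h] at h1
  obtain ⟨⟨⟨c, μ⟩, ν⟩, hw⟩ := h1
  rw [Phi_apply, Prod.ext_iff, Prod.ext_iff, Prod.ext_iff] at hw
  obtain ⟨⟨e1, e2⟩, e3, e4⟩ := hw
  simp only at e1 e2 e3 e4
  subst e2 e4
  rw [zero_smul, zero_add] at e3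
  have hν : ν = 0 := by
    have h4 : ν • p.rep = (0 : K) • p.rep := by rw [zero_smul, e3]
    exact smul_left_injective K p.rep_nonzero h4
  have z0 : ((0 : C), (0 : K)) = 0 := rfl
  rw [z0, map_zero, hν, zero_mul, add_zero] at e1
  exact zero_ne_one e1

theorem near_new [FiniteDimensional K C] (a b : D) (G H : (C × K) →ₗ[K] K) (p : ℙ K D) (l : K)
    (hl : a = b + l • p.rep) :
    finrank K C + 2 ≤ finrank K ↥(LinearMap.range (Phi a G p) ⊓ LinearMap.range (Phi b H p)) + 1 := by
  refine near_of_functional (Phi a G p) (Phi_injective a G p) ?_ _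
    (G.comp (LinearMap.fst K (C × K) K) + (func p a) • LinearMap.snd K (C × K) K
      - H.comp (LinearMap.fst K (C × K) K)
      - (func p b) • (LinearMap.snd K (C × K) K
        + l • (LinearMap.snd K C K).comp (LinearMap.fst K (C × K) K))) ?_
  · rw [finrank_prod, finrank_prod, finrank_self]
  · intro w hw
    refine ⟨((w.1.1, w.1.2), w.2 + l * w.1.2), ?_⟩
    simp only [LinearMap.sub_apply, LinearMap.add_apply, LinearMap.smul_apply, LinearMap.comp_apply,
      LinearMap.fst_apply, LinearMap.snd_apply, smul_eq_mul] at hw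
    rw [Phi_apply, Phi_apply]
    refine Prod.ext (Prod.ext ?_ rfl) (Prod.ext ?_ rfl)
    · simp only
      linear_combination -hw
    · simp only
      rw [hl, smul_add, smul_smul, add_smul, mul_comm l]
      abel

theorem near_same [FiniteDimensional K C] (a : D) (G : (C × K) →ₗ[K] K) (p p' : ℙ K D) :
    finrank K C + 2 ≤ finrank K ↥(LinearMap.range (Phi a G p) ⊓ LinearMap.range (Phi a G p')) + 1 := by
  refine near_of_functional (Phi a G p) (Phi_injective a G p) ?_ _ (LinearMap.snd K (C × K) K) ?_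
  · rw [finrank_prod, finrank_prod, finrank_self]
  · intro w hw
    rw [LinearMap.snd_apply] at hw
    refine ⟨w, ?_⟩
    rw [Phi_apply, Phi_apply, hw]
    simp

theorem near_old [FiniteDimensional K C] [FiniteDimensional K D] (M : Submodule K (C × (D × K)))
    (a : D) (G : (C × K) →ₗ[K] K) (p : ℙ K D)
    (hM : ∀ m ∈ M, ∃ ν : K, m.2.1 = m.2.2 • a + ν • p.rep) :
    finrank K ↥M ≤ finrank K ↥(M.comap rho ⊓ LinearMap.range (Phi a G p)) := by
  have h1 : M ≤ (M.comap rho ⊓ LinearMap.range (Phi a G p)).map rho := by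
    intro m hm
    obtain ⟨ν, hν⟩ := hM m hm
    refine ⟨Phi a G p ((m.1, m.2.2), ν), ⟨?_, ⟨_, rfl⟩⟩, ?_⟩
    · rw [SetLike.mem_coe, Submodule.mem_comap, Phi_apply, rho_apply]
      simp only
      rw [← hν]
      exact hm
    · rw [Phi_apply, rho_apply]
      simp only
      rw [← hν]
  exact (Submodule.finrank_mono h1).trans (Submodule.finrank_map_le _ _)

theorem good_step [Finite K] [Nontrivial D] [FiniteDimensional K C] [FiniteDimensional K D] {k N : ℕ}
    (hk : finrank K C + 1 = k) (h : Good K C D k N) :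
    Good K (K × C) D (k + 1) (N + Nat.card K ^ (finrank K C + finrank K D + 1)) := by
  obtain ⟨ι, _, f, h0, h1, h2, h3, h4, h5⟩ := h
  have : Finite D := Module.finite_of_finite K
  have : Finite (C × K) := Module.finite_of_finite K
  have : Finite ((C × K) →ₗ[K] K) := Module.finite_of_finite K
  refine ⟨ι ⊕ (D × ((C × K) →ₗ[K] K)), inferInstance,
    Sum.elim (fun i => oldSet (f i)) newSet, ?_, ?_, ?_, ?_, ?_, ?_⟩
  · rw [Nat.card_sum, h0, Nat.card_prod, Module.natCard_eq_pow_finrank (K := K) (V := D),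
      Module.natCard_eq_pow_finrank (K := K) (V := (C × K) →ₗ[K] K), finrank_linearMap, finrank_prod,
      finrank_self, mul_one, ← pow_add]
    congr 2
    omega
  · rintro (i | x) L hL
    · obtain ⟨M, hM, rfl⟩ := hL
      rw [finrank_lift, h1 i M hM]
    · obtain ⟨p, rfl⟩ := hL
      rw [finrank_Phi, ← hk]
  · rintro (i | x) L hL M hM hLM
    · obtain ⟨L', hL', rfl⟩ := hL
      obtain ⟨M', hM', rfl⟩ := hM
      have h6 := h2 i L' hL' M' hM' (fun h => hLM (by rw [h]))
      refine ⟨hLM, ?_⟩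
      rw [← Submodule.comap_inf, finrank_lift]
      have := h6.2
      omega
    · obtain ⟨p, rfl⟩ := hL
      obtain ⟨p', rfl⟩ := hM
      refine ⟨hLM, ?_⟩
      have := near_same x.1 x.2 p p'
      omega
  · rintro (i | x) (j | y) hij
    · rw [Set.disjoint_left]
      rintro L ⟨M, hM, rfl⟩ ⟨M', hM', he⟩
      have h6 : M = M' := lift_injective he
      subst h6
      exact (Set.disjoint_left.1 (h3 i j (fun h => hij (by rw [h])))) hM hM'
    · rw [Set.disjoint_left]
      rintro L ⟨M, hM, rfl⟩ ⟨p, he⟩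
      exact lift_ne_range _ _ _ _ he
    · rw [Set.disjoint_left]
      rintro L ⟨p, rfl⟩ ⟨M, hM, he⟩
      exact lift_ne_range _ _ _ _ he.symm
    · rw [Set.disjoint_left]
      rintro L ⟨p, rfl⟩ ⟨p', he⟩
      obtain ⟨e1, e2⟩ := Phi_range_inj he
      exact hij (by rw [Prod.ext e1 e2])
  · have hon : ∀ (i : ι) (x : D × ((C × K) →ₗ[K] K)), ∃ L ∈ oldSet (f i), ∃ M ∈ newSet x,
        Near (k + 1) L M := by
      intro i x
      obtain ⟨p, M, hM, h6⟩ := h5 i x.1
      refine ⟨_, ⟨M, hM, rfl⟩, _, ⟨p, rfl⟩, lift_ne_range _ _ _ _, ?_⟩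
      have h7 := near_old M x.1 x.2 p h6
      rw [h1 i M hM] at h7
      omega
    rintro (i | x) (j | y) hij
    · obtain ⟨L, hL, M, hM, h6⟩ := h4 i j (fun h => hij (by rw [h]))
      refine ⟨_, ⟨L, hL, rfl⟩, _, ⟨M, hM, rfl⟩, fun h => h6.1 (lift_injective h), ?_⟩
      rw [← Submodule.comap_inf, finrank_lift]
      have := h6.2
      omega
    · exact hon i y
    · obtain ⟨L, hL, M, hM, h6⟩ := hon j x
      exact ⟨M, hM, L, hL, h6.symm⟩
    · obtain ⟨p, l, hl⟩ := exists_dir (K := K) (x.1 - y.1)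
      refine ⟨_, ⟨p, rfl⟩, _, ⟨p, rfl⟩, fun h => ?_, ?_⟩
      · obtain ⟨e1, e2⟩ := Phi_range_inj h
        exact hij (by rw [Prod.ext e1 e2])
      · have := near_new x.1 y.1 x.2 y.2 p l (by rw [← hl]; abel)
        omega
  · rintro (i | x) a
    · obtain ⟨p, M, hM, h6⟩ := h5 i a
      refine ⟨p, _, ⟨M, hM, rfl⟩, fun m hm => ?_⟩
      exact h6 _ hm
    · obtain ⟨p, l, hl⟩ := exists_dir (K := K) (x.1 - a)
      refine ⟨p, _, ⟨p, rfl⟩, ?_⟩
      rintro _ ⟨w, rfl⟩
      rw [Phi_apply]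
      refine ⟨w.1.2 * l + w.2, ?_⟩
      have : x.1 = a + l • p.rep := by rw [← hl]; abel
      simp only
      rw [this, smul_add, smul_smul, add_smul]
      abel

theorem point_inj {z z' : ℙ K (D × K)} (h : K ∙ ((PUnit.unit, z.rep) : PUnit.{1} × (D × K)) =
    K ∙ ((PUnit.unit, z'.rep) : PUnit.{1} × (D × K))) : z = z' := by
  have h1 : ((PUnit.unit, z.rep) : PUnit.{1} × (D × K)) ∈
      K ∙ ((PUnit.unit, z'.rep) : PUnit.{1} × (D × K)) := by
    rw [← h]; exact Submodule.mem_span_singleton_self _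
  obtain ⟨a, ha⟩ := Submodule.mem_span_singleton.1 h1
  rw [← z.mk_rep, ← z'.mk_rep, Projectivization.mk_eq_mk_iff']
  exact ⟨a, congrArg Prod.snd ha⟩

/-- the start: points -/
theorem good_base [Finite K] [Nontrivial D] [FiniteDimensional K D] :
    Good K PUnit.{1} D 1 (∑ i ∈ Finset.range (finrank K D + 1), Nat.card K ^ i) := by
  have : Finite (D × K) := Module.finite_of_finite K
  refine ⟨ℙ K (D × K), inferInstance, fun z => {K ∙ ((PUnit.unit, z.rep) : PUnit.{1} × (D × K))},
    ?_, ?_, ?_, ?_, ?_, ?_⟩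
  · apply Projectivization.card_of_finrank
    rw [finrank_prod, finrank_self]
  · rintro z M rfl
    apply finrank_span_singleton
    intro h
    exact z.rep_nonzero (congrArg Prod.snd h)
  · rintro z M rfl L rfl h
    exact absurd rfl h
  · intro z z' h
    rw [Set.disjoint_singleton]
    exact fun h' => h (point_inj h')
  · intro z z' h
    exact ⟨_, rfl, _, rfl, fun h' => h (point_inj h'), by omega⟩
  · intro z a
    obtain ⟨p, l, hl⟩ := exists_dir (K := K) (z.rep.1 - z.rep.2 • a)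
    refine ⟨p, _, rfl, fun m hm => ?_⟩
    obtain ⟨s, rfl⟩ := Submodule.mem_span_singleton.1 hm
    refine ⟨s * l, ?_⟩
    have : z.rep.1 = z.rep.2 • a + l • p.rep := by rw [← hl]; abel
    simp only [Prod.smul_mk, Prod.smul_fst, Prod.smul_snd]
    rw [this]
    simp [smul_smul]

theorem good_all (K : Type) [Field K] [Finite K] (D : Type) [AddCommGroup D] [Module K D]
    [Nontrivial D] [FiniteDimensional K D] :
    ∀ j : ℕ, ∃ (C : Type) (_ : AddCommGroup C) (_ : Module K C) (_ : FiniteDimensional K C),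
      finrank K C = j ∧
      Good K C D (j + 1) (∑ i ∈ Finset.range (finrank K D + 1 + j), Nat.card K ^ i) := by
  intro j
  induction j with
  | zero => exact ⟨PUnit.{1}, inferInstance, inferInstance, inferInstance, finrank_zero_of_subsingleton,
      good_base⟩
  | succ j ih =>
    obtain ⟨C, i1, i2, i3, h1, h2⟩ := ih
    refine ⟨K × C, inferInstance, inferInstance, inferInstance, ?_, ?_⟩
    · rw [finrank_prod, finrank_self, h1, add_comm]
    · have h3 := good_step (by rw [h1]) h2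
      rw [h1] at h3
      have e : finrank K D + 1 + (j + 1) = (finrank K D + 1 + j) + 1 := by omega
      rw [e, Finset.sum_range_succ]
      have e2 : j + finrank K D + 1 = finrank K D + 1 + j := by omega
      rw [e2] at h3
      exact h3

/-- branch sets in any space -/
theorem branch (K : Type) [Field K] [Finite K] (V : Type) [AddCommGroup V] [Module K V]
    [FiniteDimensional K V] {k : ℕ} (hk : 1 ≤ k) (hkn : k < finrank K V) :
    ∃ (f : Fin (∑ i ∈ Finset.range (finrank K V), Nat.card K ^ i) → Set (Submodule K V)),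
      (∀ i, ∀ M ∈ f i, finrank K ↥M = k) ∧
      (∀ i, (f i).Nonempty) ∧
      (∀ i, ∀ L ∈ f i, ∀ M ∈ f i, L ≠ M → Near k L M) ∧
      (∀ i j, i ≠ j → Disjoint (f i) (f j)) ∧
      (∀ i j, i ≠ j → ∃ L ∈ f i, ∃ M ∈ f j, Near k L M) := by
  obtain ⟨j, rfl⟩ : ∃ j, k = j + 1 := ⟨k - 1, by omega⟩
  obtain ⟨d, hd⟩ : ∃ d, finrank K V = d + 1 + 1 + j := ⟨finrank K V - (j + 1) - 1, by omega⟩
  obtain ⟨C, i1, i2, i3, h1, ι, _, f, h0, f1, f2, f3, f4, f5⟩ := good_all K (Fin (d + 1) → K) j
  have e : (C × ((Fin (d + 1) → K) × K)) ≃ₗ[K] V := by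
    apply LinearEquiv.ofFinrankEq
    rw [finrank_prod, finrank_prod, h1, finrank_fin_fun, finrank_self, hd]
    omega
  have hcard : ∑ i ∈ Finset.range (finrank K V), Nat.card K ^ i = Nat.card ι := by
    rw [h0, finrank_fin_fun, hd]
  have hι : Fin (∑ i ∈ Finset.range (finrank K V), Nat.card K ^ i) ≃ ι :=
    (finCongr hcard).trans (Finite.equivFin ι).symm
  have hinj : Function.Injective (fun M : Submodule K (C × ((Fin (d + 1) → K) × K)) =>
      M.map (e : (C × ((Fin (d + 1) → K) × K)) →ₗ[K] V)) :=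
    Submodule.map_injective_of_injective e.injective
  have hnear : ∀ L M : Submodule K (C × ((Fin (d + 1) → K) × K)), Near (j + 1) L M →
      Near (j + 1) (L.map (e : (C × ((Fin (d + 1) → K) × K)) →ₗ[K] V))
        (M.map (e : (C × ((Fin (d + 1) → K) × K)) →ₗ[K] V)) := by
    intro L M h
    refine ⟨fun h' => h.1 (hinj h'), ?_⟩
    rw [← Submodule.map_inf _ e.injective, LinearEquiv.finrank_map_eq]
    exact h.2
  refine ⟨fun i => (fun M => M.map (e : (C × ((Fin (d + 1) → K) × K)) →ₗ[K] V)) '' f (hι i),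
    ?_, ?_, ?_, ?_, ?_⟩
  · rintro i _ ⟨M, hM, rfl⟩
    simp only
    rw [LinearEquiv.finrank_map_eq]
    exact f1 _ M hM
  · intro i
    obtain ⟨p, M, hM, -⟩ := f5 (hι i) 0
    exact ⟨_, M, hM, rfl⟩
  · rintro i _ ⟨L, hL, rfl⟩ _ ⟨M, hM, rfl⟩ h
    exact hnear _ _ (f2 _ L hL M hM (fun h' => h (by rw [h'])))
  · intro i j h
    rw [Set.disjoint_image_iff hinj]
    exact f3 _ _ (fun h' => h (hι.injective h'))
  · intro i j h
    obtain ⟨L, hL, M, hM, h6⟩ := f4 _ _ (fun h' => h (hι.injective h'))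
    exact ⟨_, ⟨L, hL, rfl⟩, _, ⟨M, hM, rfl⟩, hnear _ _ h6⟩

end Pool.Agent.Q110.Grass
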